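import Pool.Agent.H40.EGD.Targets

/-!
# Step D: null sets of the Liouville measure in coordinates
-/

namespace Pool.Agent.H40.EGD

open MeasureTheory Set Metric Filter Topology Pool.Agent.H93.BL

theorem AEL_swap (B : Set (ℝ × ℝ)) (hB : MeasurableSet B)
    (h : ∀ᵐ φ : ℝ, volume {s : ℝ | (s, φ) ∈ B} = 0) : volume B = 0 := by
  have h1 : volume (Prod.swap ⁻¹' B : Set (ℝ × ℝ)) = volume B := by
    have h0 := (Measure.measurePreserving_swap (μ := (volume : Measure ℝ))
      (ν := (volume : Measure ℝ))).measure_preimage (s := B)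
      (by rw [← Measure.volume_eq_prod]; exact hB.nullMeasurableSet)
    rw [← Measure.volume_eq_prod] at h0
    exact h0
  rw [← h1, Measure.volume_eq_prod, Measure.measure_prod_null (measurable_swap hB)]
  filter_upwards [h] with φ hφ
  exact hφ

theorem AEL (hM0 : T_M0) : T_AEL := by
  intro ι P i Q hQ hQm
  rw [ae_iff, (hM0 ι P i {z | ¬ Q z}).1]
  have hm : MeasurableSet ({z : ℝ × ℝ | ¬ Q z} ∩ P.box i) := by
    refine MeasurableSet.inter hQm.compl ?_
    unfold Polygon.box
    exact measurableSet_Ioo.prod measurableSet_Ioo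
  refine AEL_swap _ hm ?_
  filter_upwards [hQ] with φ hφ
  by_cases hmem : φ ∈ Ioo (-(Real.pi / 2)) (Real.pi / 2)
  · refine measure_mono_null ?_ (ae_iff.1 (hφ hmem))
    rintro s ⟨hs1, hs2⟩ hcon
    exact hs1 (hcon hs2.1)
  · have : {s : ℝ | (s, φ) ∈ {z : ℝ × ℝ | ¬ Q z} ∩ P.box i} = ∅ := by
      ext s
      simp only [mem_ofPred_eq, mem_empty_iff_false, iff_false]
      rintro ⟨_, hs2⟩
      exact hmem hs2.2
    rw [this]
    simp

end Pool.Agent.H40.EGD
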