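import Pool.Agent.H40.EGD.Targets

/-!
# Step D: the family `X` and the directions
-/

namespace Pool.Agent.H40.EGD

open MeasureTheory Set Metric Filter Topology Pool.Agent.H93.BL

theorem REL_norm_dir {ι : Type} (P : Polygon ι) (z : ι × ℝ × ℝ) : ‖P.dir z‖ = 1 := by
  unfold Polygon.dir
  rw [norm_mul, P.norm_n, Complex.norm_exp_ofReal_mul_I, one_mul]

/-- the value of the indicator function on the outgoing segment -/
theorem REL_val (hIOS : T_IOS) (hNXU : T_NXU) {ι : Type} (P : Polygon ι) (X : ι → Set (ℝ × ℝ))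
    (z z' : ι × ℝ × ℝ) (t r : ℝ) (hst : P.Step z z') (ht : 0 < r) (hrt : r < t)
    (hray : ∀ r ∈ Ioo 0 t, P.pos z + (r : ℂ) * P.dir z ∈ P.Ω) :
    (FX P X (P.pos z + (r : ℂ) * P.dir z) (P.dir z) = 1 ↔ Io P X z) := by
  have hph : P.Phase z := hst.1
  have h3 := fun z'' => (hNXU ι P (P.pos z) (P.dir z) z z'' (REL_norm_dir P z)).2.2 r ht hph
    (fun q hq => hray q ⟨hq.1, lt_of_le_of_lt hq.2 hrt⟩)
  have hy : P.pos z + (r : ℂ) * P.dir z ∈ P.Ω := hray r ⟨ht, hrt⟩
  unfold FX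
  constructor
  · intro h
    split_ifs at h with hc
    · obtain ⟨z'', hn, hio⟩ := hc.2.2
      exact (hIOS ι P X z z'' ((h3 z'').1 hn)).2 hio
    · exact absurd h (by norm_num)
  · intro h
    rw [if_pos]
    exact ⟨hy, REL_norm_dir P z, z', (h3 z').2 hst, (hIOS ι P X z z' hst).1 h⟩

theorem REL_ex_mem {t : ℝ} (ht : 0 < t) {p : ℝ → Prop} (h : ∀ᵐ r : ℝ, p r) :
    ∃ r, 0 < r ∧ r < t ∧ p r := by
  by_contra hcon
  push Not at hcon
  have hsub : Ioo 0 t ⊆ {r | ¬ p r} := fun r hr => hcon r hr.1 hr.2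
  have h0 : volume (Ioo (0 : ℝ) t) = 0 := measure_mono_null hsub (ae_iff.1 h)
  rw [Real.volume_Ioo] at h0
  simp only [sub_zero, ENNReal.ofReal_eq_zero] at h0
  linarith

theorem REL (hM0 : T_M0) (hM1 : T_M1) (hPRE : T_PRE) (hMIO : T_MIO) (hIOS : T_IOS)
    (hNXU : T_NXU) (hNUL : T_NUL) (hAEL : T_AEL) (hFXM : T_FXM) : T_REL := by
  intro ι _ P X f hX hf hae i
  have hexp : Measurable fun p : ℂ × ℝ => Complex.exp ((p.2 : ℂ) * Complex.I) := by fun_prop
  have hFm : Measurable fun p : ℂ × ℝ =>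
      FX P X p.1 (Complex.exp ((p.2 : ℂ) * Complex.I)) :=
    (hFXM ι P X hX).comp (measurable_fst.prodMk hexp)
  have hfm : Measurable fun p : ℂ × ℝ => f (Complex.exp ((p.2 : ℂ) * Complex.I)) :=
    hf.comp hexp
  let N : Set (ℂ × ℝ) := {p | p.1 ∈ P.Ω ∧ FX P X p.1 (Complex.exp ((p.2 : ℂ) * Complex.I)) ≠
    f (Complex.exp ((p.2 : ℂ) * Complex.I))}
  have hNm : MeasurableSet N :=
    (measurable_fst P.isOpen.measurableSet).inter (measurableSet_eq_fun hFm hfm).compl
  have hN0 : volume N = 0 := by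
    rw [Measure.volume_eq_prod, Measure.measure_prod_null hNm]
    have h1 := (ae_restrict_iff' P.isOpen.measurableSet).1 hae
    filter_upwards [h1] with x hx
    by_cases hxΩ : x ∈ P.Ω
    · have h2 := ae_iff.1 (hx hxΩ)
      refine measure_mono_null ?_ h2
      intro θ hθ
      exact hθ.2
    · have : Prod.mk x ⁻¹' N = ∅ := by
        ext θ
        simp only [mem_preimage, mem_empty_iff_false, iff_false]
        intro h
        exact hxΩ h.1
      rw [this]
      simp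
  have hn : ‖Complex.I * P.u i‖ = 1 := by
    rw [norm_mul, Complex.norm_I, P.norm_u, one_mul]
  have hβ : Complex.exp (((Complex.arg (Complex.I * P.u i) : ℝ) : ℂ) * Complex.I) =
      Complex.I * P.u i := by
    have := Complex.norm_mul_exp_arg_mul_I (Complex.I * P.u i)
    rw [hn] at this
    simpa using this
  have hA := hNUL (P.p i) (P.u i) (Complex.arg (Complex.I * P.u i)) N (P.norm_u i) hβ hN0
  have hQm : MeasurableSet {z : ℝ × ℝ | (∃ z', P.Step (i, z) z') →
      (Io P X (i, z) ↔ f (P.dir (i, z)) = 1)} := by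
    have m1 : MeasurableSet {z : ℝ × ℝ | ∃ z', P.Step (i, z) z'} := by
      have := hPRE ι P (fun _ => univ) (fun _ => MeasurableSet.univ) i
      simpa using this
    have m2 : MeasurableSet {z : ℝ × ℝ | Io P X (i, z)} := hMIO ι P X hX i
    have hdir : Measurable fun z : ℝ × ℝ => P.dir (i, z) := by
      have h1 : Measurable fun z : ℝ × ℝ => P.n i * Complex.exp ((z.2 : ℂ) * Complex.I) := by
        fun_prop
      exact h1
    have m3 : MeasurableSet {z : ℝ × ℝ | f (P.dir (i, z)) = 1} :=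
      (hf.comp hdir) (measurableSet_singleton 1)
    have heq : {z : ℝ × ℝ | (∃ z', P.Step (i, z) z') →
        (Io P X (i, z) ↔ f (P.dir (i, z)) = 1)} =
        {z : ℝ × ℝ | ∃ z', P.Step (i, z) z'}ᶜ ∪
          (({z : ℝ × ℝ | Io P X (i, z)} ∩ {z : ℝ × ℝ | f (P.dir (i, z)) = 1}) ∪
          ({z : ℝ × ℝ | Io P X (i, z)}ᶜ ∩ {z : ℝ × ℝ | f (P.dir (i, z)) = 1}ᶜ)) := by
      ext z
      simp only [mem_ofPred_eq, mem_union, mem_compl_iff, mem_inter_iff]
      tauto
    rw [heq]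
    exact m1.compl.union ((m2.inter m3).union (m2.compl.inter m3.compl))
  have hB : ∀ᵐ z ∂(P.liouville i), (∃ z', P.Step (i, z) z') →
      (Io P X (i, z) ↔ f (P.dir (i, z)) = 1) := by
    refine hAEL ι P i (fun z => (∃ z', P.Step (i, z) z') →
      (Io P X (i, z) ↔ f (P.dir (i, z)) = 1)) ?_ hQm
    filter_upwards [hA] with φ hφ hmem
    filter_upwards [hφ hmem] with s hs hslen hstep
    obtain ⟨z', hz'⟩ := hstep
    obtain ⟨hph, hph', t, ht, hpos, hray, hdir⟩ := id hz'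
    obtain ⟨r, hr0, hrt, hr⟩ := REL_ex_mem ht hs
    have hd : P.dir (i, s, φ) = Complex.exp (((φ + Complex.arg (Complex.I * P.u i) : ℝ) : ℂ) *
        Complex.I) := by
      have h1 : P.dir (i, s, φ) = Complex.I * P.u i * Complex.exp ((φ : ℂ) * Complex.I) := rfl
      have h2 : (((φ + Complex.arg (Complex.I * P.u i) : ℝ) : ℂ) * Complex.I) =
          ((Complex.arg (Complex.I * P.u i) : ℝ) : ℂ) * Complex.I + (φ : ℂ) * Complex.I := by
        push_cast
        ring
      rw [h1, h2, Complex.exp_add, hβ]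
    have hp : P.pos (i, s, φ) = P.p i + (s : ℂ) * P.u i := rfl
    rw [← hd, ← hp] at hr
    have hval := REL_val hIOS hNXU P X (i, s, φ) z' t r hz' hr0 hrt hray
    have hyΩ : P.pos (i, s, φ) + (r : ℂ) * P.dir (i, s, φ) ∈ P.Ω := hray r ⟨hr0, hrt⟩
    have hfx : FX P X (P.pos (i, s, φ) + (r : ℂ) * P.dir (i, s, φ)) (P.dir (i, s, φ)) =
        f (P.dir (i, s, φ)) := by
      by_contra hne
      apply hr
      refine ⟨hyΩ, ?_⟩
      simp only
      rw [← hd]
      exact hne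
    rw [← hval, hfx]
  filter_upwards [hB, (hM1 ι P i).1] with z hz hz1
  exact hz hz1

end Pool.Agent.H40.EGD
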