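import Pool.Agent.H93.BL.Final
import Pool.Agent.H11.EN.SC
import Pool.Agent.H37.EN.HC
import Pool.Agent.H38.EGD.CST
import Pool.Agent.H87.EGD.DET
import Pool.Agent.H64.EGD.DIR
import Pool.Agent.H82.EGD.ERG
import Pool.Agent.H60.EGD.FXG
import Pool.Agent.H60.EGD.FXM
import Pool.Agent.H37.EGD.HLF
import Pool.Agent.H60.EGD.HLG
import Pool.Agent.H30.EGD.IOS
import Pool.Agent.H30.EGD.IOX
import Pool.Agent.H30.EGD.MIO
import Pool.Agent.H41.EGD.NULM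
import Pool.Agent.H33.EGD.NXU
import Pool.Agent.H60.EGD.PRE
import Pool.Agent.H4.EGD.REF
import Pool.Agent.H27.EGD.RIG
import Pool.Agent.H73.EGD.ROT
import Pool.Agent.H81.EGD.RRR
import Pool.Agent.H73.EGD.UNI
import Pool.Agent.H40.EGD.REL
import Pool.Agent.H40.EGD.AEL

/-!
# Step D: assembly.  From the constancy of the modes of the invariant functions to the billiard map
-/

namespace Pool.Agent.H40.EGD.All

open MeasureTheory Set Pool.Agent.H93.BL Pool.Agent.H40.EGD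
open Pool.Agent.H93.BL.Final (pM0 pM1 pM2 pM6 pM7 pB2 pB3)

theorem pPRE : T_PRE := Pool.Agent.H60.EGD.PRE pM2 Pool.Agent.H11.EN.sc pB3
theorem pMIO : T_MIO := Pool.Agent.H30.EGD.MIO pPRE
theorem pIOS : T_IOS := Pool.Agent.H30.EGD.IOS pB3
theorem pIOX : T_IOX := Pool.Agent.H30.EGD.IOX pM1 pM6 pM7 pB3
theorem pNXU : T_NXU := Pool.Agent.H33.EGD.NXU
theorem pFXM : T_FXM := Pool.Agent.H60.EGD.FXM pMIO Pool.Agent.H37.EN.hc pNXU
theorem pFXG : T_FXG := Pool.Agent.H60.EGD.FXG pNXU pIOS pB2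
theorem pUNI : T_UNI := Pool.Agent.H73.EGD.UNI
theorem pHLF : T_HLF := Pool.Agent.H37.EGD.HLF
theorem pHLG : T_HLG := Pool.Agent.H60.EGD.HLG
theorem pROT : T_ROT := Pool.Agent.H73.EGD.ROT pUNI
theorem pRRR : T_RRR := Pool.Agent.H81.EGD.RRR
theorem pCST : T_CST := Pool.Agent.H38.EGD.CST pUNI
theorem pNUL : T_NUL := Pool.Agent.H41.EGD.NUL
theorem pAEL : T_AEL := Pool.Agent.H40.EGD.AEL pM0
theorem pDIR : T_DIR := Pool.Agent.H64.EGD.DIR pM0
theorem pREL : T_REL := Pool.Agent.H40.EGD.REL pM0 pM1 pPRE pMIO pIOS pNXU pNUL pAEL pFXM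
theorem pREF : T_REF := Pool.Agent.H4.EGD.REF pM1 pM6 pIOS pDIR pHLF

/-- invariant sets depend only on the direction -/
theorem pRIG (h : Pool.Agent.H93.EG.T_MAIN) : T_RIG :=
  Pool.Agent.H27.EGD.RIG h pCST pFXM pFXG pREL pREF pIOX

/-- Q1 -/
theorem pDET (h : Pool.Agent.H93.EG.T_MAIN) : T_DET :=
  Pool.Agent.H87.EGD.DET (pRIG h) pDIR pHLG

/-- ergodicity -/
theorem pERG (h : Pool.Agent.H93.EG.T_MAIN) : T_ERG :=
  Pool.Agent.H82.EGD.ERG (pRIG h) pDIR pRRR pROT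

end Pool.Agent.H40.EGD.All
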