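import Pool.Agent.H93.EG.Targets

/-!
# Invariant sets of the billiard map: definitions for the modules of step D
-/

namespace Pool.Agent.H40.EGD

open MeasureTheory Set Metric Filter Topology Pool.Agent.H93.BL

variable {ι : Type} (P : Polygon ι)

/-- `n` steps of the billiard map -/
def it : ℕ → ι × ℝ × ℝ → ι × ℝ × ℝ → Prop
  | 0, z, z' => z = z'
  | n + 1, z, z' => ∃ y, P.Step z y ∧ it n y z'

/-- the forward orbit of `z` visits `X` infinitely often -/
def Io (X : ι → Set (ℝ × ℝ)) (z : ι × ℝ × ℝ) : Prop :=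
  ∀ N : ℕ, ∃ n ≥ N, ∃ z', it P n z z' ∧ z'.2 ∈ X z'.1

/-- `z` is the phase point after the first reflection of the orbit starting at `y` in the
direction `w` -/
def Nx (y w : ℂ) (z : ι × ℝ × ℝ) : Prop :=
  P.Phase z ∧ (∃ t > (0 : ℝ), P.pos z = y + (t : ℂ) * w ∧
    ∀ r ∈ Ioo 0 t, y + (r : ℂ) * w ∈ P.Ω) ∧ P.dir z = P.refl z.1 w

open Classical in
/-- indicator function of the states whose orbit visits `X` infinitely often -/
noncomputable def FX (X : ι → Set (ℝ × ℝ)) (y w : ℂ) : ℝ :=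
  if y ∈ P.Ω ∧ ‖w‖ = 1 ∧ ∃ z, Nx P y w z ∧ Io P X z then 1 else 0

end Pool.Agent.H40.EGD
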