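import Pool.Agent.H40.EGD.Defs

/-!
# Invariant sets of the billiard map: targets of the modules of step D
-/

namespace Pool.Agent.H40.EGD

open MeasureTheory Set Metric Filter Topology Pool.Agent.H93.BL
open Pool.Agent.H93.EN (av md rf)
open Pool.Agent.H93.EG (InvG T_MAIN)

/-! ## The exactly invariant version of an invariant family -/

/-- preimages of measurable families are measurable -/
def T_PRE : Prop := ∀ (ι : Type) [Finite ι] (P : Polygon ι) (B : ι → Set (ℝ × ℝ)),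
  (∀ i, MeasurableSet (B i)) →
    ∀ i, MeasurableSet {z : ℝ × ℝ | ∃ z', P.Step (i, z) z' ∧ z'.2 ∈ B z'.1}

/-- the set of points visiting `X` infinitely often is measurable -/
def T_MIO : Prop := ∀ (ι : Type) [Finite ι] (P : Polygon ι) (X : ι → Set (ℝ × ℝ)),
  (∀ i, MeasurableSet (X i)) → ∀ i, MeasurableSet {z : ℝ × ℝ | Io P X (i, z)}

/-- exact invariance -/
def T_IOS : Prop := ∀ (ι : Type) (P : Polygon ι) (X : ι → Set (ℝ × ℝ)) (z z' : ι × ℝ × ℝ),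
  P.Step z z' → (Io P X z ↔ Io P X z')

/-- an invariant family agrees almost everywhere with its exact version -/
def T_IOX : Prop := ∀ (ι : Type) [Fintype ι] (P : Polygon ι) (X : ι → Set (ℝ × ℝ)),
  P.Invariant X → ∀ i, ∀ᵐ z ∂(P.liouville i), (Io P X (i, z) ↔ z ∈ X i)

/-- uniqueness of the next phase point, and moving along the ray -/
def T_NXU : Prop := ∀ (ι : Type) (P : Polygon ι) (y w : ℂ) (z z' : ι × ℝ × ℝ), ‖w‖ = 1 →
  (Nx P y w z → Nx P y w z' → z = z') ∧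
  (∀ t : ℝ, 0 ≤ t → (∀ r ∈ Icc 0 t, y + (r : ℂ) * w ∈ P.Ω) →
    (Nx P (y + (t : ℂ) * w) w z ↔ Nx P y w z)) ∧
  (∀ s : ℝ, 0 < s → P.Phase z → (∀ r ∈ Ioc 0 s, P.pos z + (r : ℂ) * P.dir z ∈ P.Ω) →
    (Nx P (P.pos z + (s : ℂ) * P.dir z) (P.dir z) z' ↔ P.Step z z'))

/-- measurability of the indicator function -/
def T_FXM : Prop := ∀ (ι : Type) [Finite ι] (P : Polygon ι) (X : ι → Set (ℝ × ℝ)),
  (∀ i, MeasurableSet (X i)) → Measurable (Function.uncurry (FX P X))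

/-- the indicator function is an invariant function -/
def T_FXG : Prop := ∀ (ι : Type) (P : Polygon ι) (X : ι → Set (ℝ × ℝ)),
  Measurable (Function.uncurry (FX P X)) → InvG P (FX P X)

/-! ## The circle -/

/-- uniqueness of the Fourier coefficients -/
def T_UNI : Prop := ∀ (g g' : ℂ → ℝ), Measurable g → Measurable g' → (∃ C, ∀ w, |g w| ≤ C) →
  (∃ C, ∀ w, |g' w| ≤ C) → (∀ k : ℤ, md g k = md g' k) →
    ∀ᵐ θ : ℝ, g (Complex.exp ((θ : ℂ) * Complex.I)) = g' (Complex.exp ((θ : ℂ) * Complex.I))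

/-- an invariance known for half of the directions -/
def T_HLF : Prop := ∀ (u : ℂ) (W : Set ℂ), ‖u‖ = 1 →
  (∀ᵐ φ : ℝ, φ ∈ Ioo (-(Real.pi / 2)) (Real.pi / 2) →
    (Complex.I * u * Complex.exp ((φ : ℂ) * Complex.I) ∈ W ↔
      rf u (Complex.I * u * Complex.exp ((φ : ℂ) * Complex.I)) ∈ W)) →
  ∀ᵐ θ : ℝ, (Complex.exp ((θ : ℂ) * Complex.I) ∈ W ↔
    rf u (Complex.exp ((θ : ℂ) * Complex.I)) ∈ W)

/-- a set of directions which contains almost all directions of a half circle and is invariant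
under the reflection contains almost all directions -/
def T_HLG : Prop := ∀ (u : ℂ) (W : Set ℂ), ‖u‖ = 1 →
  (∀ᵐ φ : ℝ, φ ∈ Ioo (-(Real.pi / 2)) (Real.pi / 2) →
    Complex.I * u * Complex.exp ((φ : ℂ) * Complex.I) ∈ W) →
  (∀ᵐ θ : ℝ, (Complex.exp ((θ : ℂ) * Complex.I) ∈ W ↔
    rf u (Complex.exp ((θ : ℂ) * Complex.I)) ∈ W)) →
  ∀ᵐ θ : ℝ, Complex.exp ((θ : ℂ) * Complex.I) ∈ W

/-- ergodicity of irrational rotations -/
def T_ROT : Prop := ∀ (ρ : ℂ) (W : Set ℂ), ‖ρ‖ = 1 → (∀ m : ℕ, 0 < m → ρ ^ m ≠ 1) →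
  MeasurableSet W →
  (∀ᵐ θ : ℝ, (Complex.exp ((θ : ℂ) * Complex.I) ∈ W ↔
    ρ * Complex.exp ((θ : ℂ) * Complex.I) ∈ W)) →
  (∀ᵐ θ : ℝ, Complex.exp ((θ : ℂ) * Complex.I) ∈ W) ∨
    ∀ᵐ θ : ℝ, Complex.exp ((θ : ℂ) * Complex.I) ∉ W

/-- composition of two reflections of directions -/
def T_RRR : Prop := ∀ (a b : ℂ) (W : Set ℂ), ‖a‖ = 1 → ‖b‖ = 1 →
  (∀ᵐ θ : ℝ, (Complex.exp ((θ : ℂ) * Complex.I) ∈ W ↔
    rf a (Complex.exp ((θ : ℂ) * Complex.I)) ∈ W)) →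
  (∀ᵐ θ : ℝ, (Complex.exp ((θ : ℂ) * Complex.I) ∈ W ↔
    rf b (Complex.exp ((θ : ℂ) * Complex.I)) ∈ W)) →
  ∀ᵐ θ : ℝ, (Complex.exp ((θ : ℂ) * Complex.I) ∈ W ↔
    (a / b) ^ 2 * Complex.exp ((θ : ℂ) * Complex.I) ∈ W)

/-! ## From functions to the billiard map -/

/-- a function with constant modes depends only on the direction -/
def T_CST : Prop := ∀ (ι : Type) (P : Polygon ι) (F : ℂ → ℂ → ℝ), InvG P F →
  (∀ k : ℤ, ∃ c : ℂ, ∀ᵐ x ∂(volume.restrict P.Ω), md (F x) k = c) →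
  ∃ x₀ : ℂ, ∀ᵐ x ∂(volume.restrict P.Ω), ∀ᵐ θ : ℝ,
    F x (Complex.exp ((θ : ℂ) * Complex.I)) = F x₀ (Complex.exp ((θ : ℂ) * Complex.I))

/-- null sets of states and phase points: coordinates -/
def T_NUL : Prop := ∀ (p u : ℂ) (β : ℝ) (N : Set (ℂ × ℝ)), ‖u‖ = 1 →
  Complex.exp ((β : ℂ) * Complex.I) = Complex.I * u → volume N = 0 →
  ∀ᵐ φ : ℝ, φ ∈ Ioo (-(Real.pi / 2)) (Real.pi / 2) → ∀ᵐ s : ℝ, ∀ᵐ r : ℝ,
    (p + (s : ℂ) * u + (r : ℂ) * Complex.exp (((φ + β : ℝ) : ℂ) * Complex.I), φ + β) ∉ N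

/-- null sets for the Liouville measure in coordinates -/
def T_AEL : Prop := ∀ (ι : Type) (P : Polygon ι) (i : ι) (Q : ℝ × ℝ → Prop),
  (∀ᵐ φ : ℝ, φ ∈ Ioo (-(Real.pi / 2)) (Real.pi / 2) → ∀ᵐ s : ℝ, s ∈ Ioo 0 (P.len i) →
    Q (s, φ)) → MeasurableSet {z | Q z} → ∀ᵐ z ∂(P.liouville i), Q z

/-- conditions on the direction -/
def T_DIR : Prop := ∀ (ι : Type) (P : Polygon ι) (i : ι) (W : Set ℂ),
  ((∀ᵐ z ∂(P.liouville i), P.dir (i, z) ∈ W) ↔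
    ∀ᵐ φ : ℝ, φ ∈ Ioo (-(Real.pi / 2)) (Real.pi / 2) →
      Complex.I * P.u i * Complex.exp ((φ : ℂ) * Complex.I) ∈ W) ∧
  ((∀ᵐ θ : ℝ, Complex.exp ((θ : ℂ) * Complex.I) ∈ W) →
    ∀ᵐ z ∂(P.liouville i), P.dir (i, z) ∈ W)

/-- the family `X` and the directions -/
def T_REL : Prop := ∀ (ι : Type) [Fintype ι] (P : Polygon ι) (X : ι → Set (ℝ × ℝ)) (f : ℂ → ℝ),
  (∀ i, MeasurableSet (X i)) → Measurable f →
  (∀ᵐ x ∂(volume.restrict P.Ω), ∀ᵐ θ : ℝ, FX P X x (Complex.exp ((θ : ℂ) * Complex.I)) =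
    f (Complex.exp ((θ : ℂ) * Complex.I))) →
  ∀ i, ∀ᵐ z ∂(P.liouville i), (Io P X (i, z) ↔ f (P.dir (i, z)) = 1)

/-- invariance of the set of directions under the reflections -/
def T_REF : Prop := ∀ (ι : Type) [Fintype ι] (P : Polygon ι) (X : ι → Set (ℝ × ℝ)) (W : Set ℂ),
  (∀ i, ∀ᵐ z ∂(P.liouville i), (Io P X (i, z) ↔ P.dir (i, z) ∈ W)) →
  ∀ i, ∀ᵐ θ : ℝ, (Complex.exp ((θ : ℂ) * Complex.I) ∈ W ↔
    P.refl i (Complex.exp ((θ : ℂ) * Complex.I)) ∈ W)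

/-- THEOREM: an invariant set of the billiard map depends only on the direction, up to a null
set -/
def T_RIG : Prop := ∀ (ι : Type) [Fintype ι] (P : Polygon ι) (X : ι → Set (ℝ × ℝ)),
  (∀ i, MeasurableSet (X i)) → P.Invariant X → ∃ W : Set ℂ, MeasurableSet W ∧
    (∀ i, ∀ᵐ θ : ℝ, (Complex.exp ((θ : ℂ) * Complex.I) ∈ W ↔
      P.refl i (Complex.exp ((θ : ℂ) * Complex.I)) ∈ W)) ∧
    ∀ i, ∀ᵐ z ∂(P.liouville i), (z ∈ X i ↔ P.dir (i, z) ∈ W)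

/-- THEOREM: Q1 -/
def T_DET : Prop := ∀ (ι : Type) [Fintype ι] (P : Polygon ι) (E : Set ι), E.Nonempty →
  P.Determines E

/-- THEOREM: the billiard map of an irrational polygon is ergodic -/
def T_ERG : Prop := ∀ (ι : Type) [Fintype ι] (P : Polygon ι) (i j : ι),
  (∀ m : ℕ, 0 < m → (P.u i / P.u j) ^ m ≠ 1) → ∀ X : ι → Set (ℝ × ℝ),
    (∀ i, MeasurableSet (X i)) → P.Invariant X →
      (∀ i, P.liouville i (X i) = 0) ∨ ∀ i, P.liouville i (X i)ᶜ = 0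

end Pool.Agent.H40.EGD
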